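import Mathlib
import Pool.Agent.Helper3_PPZ.Stmts
import Pool.Agent.Helper52_PPX.Ngc
import Pool.Agent.Helper52_PPX.Htl

/-!
# Squad PPZ, module NOD: numbers of nodes and heights
-/

set_option autoImplicit false

universe u

namespace Pool.Agent.PPZ.H83

open MvPolynomial PGH PPX

theorem card_zeros {k E : Type u} [Field k] [IsAlgClosed k] [CharZero k] [Field E] [Algebra k E]
    [FF k E] (w : E) (c : k) (S : Set (Place k E)) (hfin : S.Finite)
    (h : ∀ P ∈ S, P.ord (w - algebraMap k E c) = 1) : S.ncard ≤ ht k w := by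
  obtain ⟨T, hT⟩ := hfin.exists_finset
  have hS : S = (T : Set (Place k E)) := by
    ext P
    rw [Finset.mem_coe, hT]
  rw [hS, Set.ncard_coe_finset]
  have h2 := sum_poles_le (L := k) (w - algebraMap k E c)⁻¹ T
  rw [ht_inv, PPX.H52.ht_sub_const] at h2
  have h3 : (T.card : ℤ) ≤ ∑ P ∈ T, max 0 (-P.ord (w - algebraMap k E c)⁻¹) := by
    have : (T.card : ℤ) = ∑ P ∈ T, (1 : ℤ) := by simp
    rw [this]
    refine Finset.sum_le_sum fun P hP => ?_
    have := h P ((hT P).1 hP)
    rw [P.ord_inv]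
    omega
  exact_mod_cast h3.trans h2

theorem nod : NodStmt.{u} := by
  intro k _ _ _ N₁ N₂ a b ha hb C
  have hconst : ∀ c : k, C.D (algebraMap k C.E c) = 0 := fun c => (C.ker _).2 ⟨c, rfl⟩
  obtain ⟨⟨S, hS, hS1, hS2⟩, hZ⟩ := PPX.H52.ngc C.D C.cp C.sc C.bd C.bp a b C.x C.z ha hb
    (fun i => hconst _) (fun j => hconst _) C.dx C.dz C.pat
  have hbad := C.bad
  have hxa : ∀ i, C.x - algebraMap k C.E (a i) ≠ 0 := by
    intro i h
    apply C.dx
    rw [sub_eq_zero.1 h]
    exact hconst _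
  -- finiteness
  have hfin : C.nodes.Finite := by
    have h1 : (⋃ i : Fin N₁, {P : Place k C.E | P.ord (C.x - algebraMap k C.E (a i)) ≠ 0}).Finite :=
      Set.finite_iUnion fun i => finite_support (L := k) _
    refine h1.subset ?_
    rintro P ⟨i, j, hP⟩
    refine Set.mem_iUnion.2 ⟨i, ?_⟩
    change P.ord _ ≠ 0
    rw [hP.2.1]
    exact one_ne_zero
  have hSn : S.card ≤ C.n := by
    rw [← Set.ncard_coe_finset]
    refine Set.ncard_le_ncard ?_ hfin
    intro P hP
    exact hS P hP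
  obtain ⟨ht1, ht2⟩ := PPX.H52.htl C.D C.cp C.sc C.bp a b C.x C.z
    (fun i => hconst _) (fun j => hconst _) C.dx C.dz _ hZ
  have hh : C.h = ht k C.x + ht k C.z := rfl
  have e1 : N₁ * ht k C.x ≤ C.n + 8 * C.h := by
    rw [hh]
    omega
  have e2 : N₂ * ht k C.z ≤ C.n + 8 * C.h := by
    rw [hh]
    omega
  refine ⟨hfin, by rw [hh]; omega, e1, e2, ?_, ?_, ?_, ?_, ?_, ?_, ?_⟩
  · intro N hN h1 h2
    have h3 : N * C.h ≤ N₁ * ht k C.x + N₂ * ht k C.z := by
      rw [hh, Nat.mul_add]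
      exact Nat.add_le_add (Nat.mul_le_mul_right _ h1) (Nat.mul_le_mul_right _ h2)
    have h4 : 32 * C.h ≤ N * C.h := Nat.mul_le_mul_right _ hN
    omega
  · change ht k (PPX.th C.D C.x C.z) ≤ _
    rw [hh]
    omega
  · change ht k (PPX.la C.D (fun i => algebraMap k C.E (a i)) (fun j => algebraMap k C.E (b j))
      C.x C.z) ≤ _
    rw [hh]
    omega
  · intro i
    exact card_zeros C.x (a i) _ (hfin.subset fun P hP => hP.1) fun P hP => hP.2
  · intro j
    exact card_zeros C.z (b j) _ (hfin.subset fun P hP => hP.1) fun P hP => hP.2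
  · intro c
    constructor
    · intro h
      exact C.dx (h ▸ hconst c)
    · intro h
      exact C.dz (h ▸ hconst c)
  · exact div_ne_zero C.dx C.dz

end Pool.Agent.PPZ.H83
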